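import Pool.Agent.W92.ET.Base

set_option autoImplicit false

open MeasureTheory Filter Topology

namespace Pool.Agent.W538.ET

open Pool.Agent.W92.ET

theorem cc_zero : cc 0 = 1 := by simp [cc]

theorem cc_pos (k : ℕ) : 0 < cc k := by
  unfold cc
  have := Nat.centralBinom_pos k
  positivity

theorem cc_succ (k : ℕ) : (2 * k + 2 : ℝ) * cc (k + 1) = (2 * k + 1) * cc k := by
  have h := Nat.succ_mul_centralBinom_succ k
  have h' : ((k : ℝ) + 1) * (Nat.centralBinom (k + 1) : ℝ) =
      2 * (2 * k + 1) * (Nat.centralBinom k : ℝ) := by exact_mod_cast h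
  unfold cc
  rw [pow_succ]
  field_simp
  linarith

theorem cc_sq (k : ℕ) : cc k ^ 2 * (2 * k + 1) ≤ 1 := by
  induction k with
  | zero => simp [cc_zero]
  | succ k ih =>
    have h := cc_succ k
    have h1 : cc (k + 1) = (2 * k + 1) / (2 * k + 2) * cc k := by
      field_simp
      linarith
    rw [h1]
    push_cast
    have h2 : ((2 * (k : ℝ) + 1) / (2 * k + 2) * cc k) ^ 2 * (2 * (k + 1) + 1) =
        (cc k ^ 2 * (2 * k + 1)) * ((2 * k + 1) * (2 * k + 3) / (2 * k + 2) ^ 2) := by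
      field_simp
      ring
    rw [h2]
    have h3 : (2 * (k : ℝ) + 1) * (2 * k + 3) / (2 * k + 2) ^ 2 ≤ 1 := by
      rw [div_le_one (by positivity)]
      nlinarith
    have h4 : 0 ≤ (2 * (k : ℝ) + 1) * (2 * k + 3) / (2 * k + 2) ^ 2 := by positivity
    have h5 : 0 ≤ cc k ^ 2 * (2 * k + 1) := by positivity
    nlinarith

theorem cc_tendsto : Tendsto cc atTop (𝓝 0) := by
  have h1 : Tendsto (fun k : ℕ => 1 / ((k : ℝ) + 1)) atTop (𝓝 0) :=
    tendsto_one_div_add_atTop_nhds_zero_nat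
  have h2 : Tendsto (fun k => cc k ^ 2) atTop (𝓝 0) := by
    refine squeeze_zero (fun k => by positivity) (fun k => ?_) h1
    rw [le_div_iff₀ (by positivity)]
    have := cc_sq k
    have h : cc k ^ 2 * ((k : ℝ) + 1) ≤ cc k ^ 2 * (2 * k + 1) := by
      apply mul_le_mul_of_nonneg_left _ (by positivity)
      have : (0 : ℝ) ≤ k := by positivity
      linarith
    linarith
  have h3 : Tendsto (fun k => Real.sqrt (cc k ^ 2)) atTop (𝓝 (Real.sqrt 0)) :=
    (Real.continuous_sqrt.tendsto 0).comp h2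
  rw [Real.sqrt_zero] at h3
  refine h3.congr fun k => ?_
  rw [Real.sqrt_sq (cc_pos k).le]

/-- partial sums -/
noncomputable def sig (l K : ℕ) : ℝ := ∑ k ∈ Finset.range K, cc k / (2 * k + 2 * l + 1)

theorem sig_step (l K : ℕ) : (2 * l + 1 : ℝ) * sig l K - (2 * l + 2) * sig (l + 1) K =
    2 * K * cc K / (2 * K + 2 * l + 1) := by
  induction K with
  | zero => simp [sig]
  | succ K ih =>
    have e1 : sig l (K + 1) = sig l K + cc K / (2 * K + 2 * l + 1) := Finset.sum_range_succ _ _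
    have e2 : sig (l + 1) (K + 1) = sig (l + 1) K + cc K / (2 * K + 2 * ((l + 1 : ℕ) : ℝ) + 1) :=
      Finset.sum_range_succ _ _
    rw [e1, e2]
    have h := cc_succ K
    have h1 : cc (K + 1) = (2 * K + 1) / (2 * K + 2) * cc K := by
      field_simp
      linarith
    have h2 : (2 * l + 1 : ℝ) * (sig l K + cc K / (2 * K + 2 * l + 1)) -
        (2 * l + 2) * (sig (l + 1) K + cc K / (2 * K + 2 * ((l + 1 : ℕ) : ℝ) + 1)) =
        ((2 * l + 1 : ℝ) * sig l K - (2 * l + 2) * sig (l + 1) K) +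
        ((2 * l + 1 : ℝ) * (cc K / (2 * K + 2 * l + 1)) -
          (2 * l + 2) * (cc K / (2 * K + 2 * ((l + 1 : ℕ) : ℝ) + 1))) := by ring
    rw [h2, ih, h1]
    push_cast
    have p1 : (2 * (K : ℝ) + 2 * l + 1) ≠ 0 := by positivity
    have p2 : (2 * (K : ℝ) + 2 * (l + 1) + 1) ≠ 0 := by positivity
    have p3 : (2 * ((K : ℝ) + 1) + 2 * l + 1) ≠ 0 := by positivity
    have p4 : (2 * (K : ℝ) + 2) ≠ 0 := by positivity
    field_simp
    ring

theorem ustep (l : ℕ) : Tendsto (fun K : ℕ => 2 * K * cc K / (2 * K + 2 * l + 1)) atTop (𝓝 0) := by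
  refine squeeze_zero (fun K => ?_) (fun K => ?_) cc_tendsto
  · have := (cc_pos K).le
    positivity
  · rw [div_le_iff₀ (by positivity)]
    have := (cc_pos K).le
    have h : (0 : ℝ) ≤ K := by positivity
    have h' : (0 : ℝ) ≤ l := by positivity
    nlinarith

/-- `1 - cos t * ∑_(k<K) cc k sin^(2k) t` -/
noncomputable def gg (K : ℕ) (t : ℝ) : ℝ :=
  1 - Real.cos t * ∑ k ∈ Finset.range K, cc k * Real.sin t ^ (2 * k)

/-- its primitive -/
noncomputable def GP (K : ℕ) (t : ℝ) : ℝ :=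
  t - ∑ k ∈ Finset.range K, cc k * Real.sin t ^ (2 * k + 1) / (2 * k + 1)

theorem gg_deriv (K : ℕ) (t : ℝ) :
    HasDerivAt (gg (K + 1)) ((2 * K + 1) * cc K * Real.sin t ^ (2 * K + 1)) t := by
  induction K with
  | zero =>
    have h : gg (0 + 1) = fun t => 1 - Real.cos t := by
      funext t
      simp [gg, cc_zero]
    rw [h]
    have h2 := (Real.hasDerivAt_cos t).const_sub 1
    refine h2.congr_deriv ?_
    simp [cc_zero]
  | succ K ih =>
    have h : gg (K + 1 + 1) = fun t => gg (K + 1) t -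
        Real.cos t * (cc (K + 1) * Real.sin t ^ (2 * (K + 1))) := by
      funext t
      unfold gg
      rw [Finset.sum_range_succ _ (K + 1)]
      ring
    rw [h]
    have h2 := (Real.hasDerivAt_cos t).mul
      (((Real.hasDerivAt_sin t).pow (2 * (K + 1))).const_mul (cc (K + 1)))
    have h3 := ih.sub h2
    refine h3.congr_deriv ?_
    simp only [Pi.pow_apply]
    have h4 := cc_succ K
    have h5 : Real.cos t ^ 2 = 1 - Real.sin t ^ 2 := Real.cos_sq' t
    have e1 : 2 * (K + 1) - 1 = 2 * K + 1 := by omega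
    rw [e1]
    push_cast
    have e2 : Real.cos t * (cc (K + 1) * (2 * ((K : ℝ) + 1) * Real.sin t ^ (2 * K + 1) *
        Real.cos t)) = cc (K + 1) * (2 * K + 2) * Real.sin t ^ (2 * K + 1) *
          Real.cos t ^ 2 := by ring
    rw [e2, h5]
    have e3 : cc (K + 1) * (2 * (K : ℝ) + 2) = (2 * K + 1) * cc K := by linarith
    have e4 : cc (K + 1) * (2 * (K : ℝ) + 2) * Real.sin t ^ (2 * K + 1) *
        (1 - Real.sin t ^ 2) = (2 * K + 1) * cc K * Real.sin t ^ (2 * K + 1) -
        cc (K + 1) * (2 * (K : ℝ) + 2) * Real.sin t ^ (2 * K + 1) * Real.sin t ^ 2 := by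
      rw [← e3]; ring
    rw [e4]
    ring

theorem GP_deriv (K : ℕ) (t : ℝ) : HasDerivAt (GP K) (gg K t) t := by
  induction K with
  | zero =>
    have h : GP 0 = fun t => t := by funext t; simp [GP]
    rw [h]
    have h2 := hasDerivAt_id' t
    refine h2.congr_deriv ?_
    simp [gg]
  | succ K ih =>
    have h : GP (K + 1) = fun t => GP K t - cc K * Real.sin t ^ (2 * K + 1) / (2 * K + 1) := by
      funext t
      unfold GP
      rw [Finset.sum_range_succ]
      ring
    rw [h]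
    have h2 := (((Real.hasDerivAt_sin t).pow (2 * K + 1)).const_mul (cc K)).div_const
      (2 * (K : ℝ) + 1)
    have h3 := ih.sub h2
    refine h3.congr_deriv ?_
    unfold gg
    rw [Finset.sum_range_succ]
    have e1 : 2 * K + 1 - 1 = 2 * K := by omega
    rw [e1]
    push_cast
    have : (2 * (K : ℝ) + 1) ≠ 0 := by positivity
    field_simp
    ring

theorem gg_zero (K : ℕ) : gg (K + 1) 0 = 0 := by
  unfold gg
  rw [Finset.sum_range_succ', Real.sin_zero, Real.cos_zero]
  simp [cc_zero]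

theorem GP_zero (K : ℕ) : GP K 0 = 0 := by
  unfold GP
  rw [Real.sin_zero]
  simp

theorem GP_pi (K : ℕ) : GP K (Real.pi / 2) = Real.pi / 2 - sig 0 K := by
  unfold GP sig
  rw [Real.sin_pi_div_two]
  simp

theorem gg_pi (K : ℕ) : gg K (Real.pi / 2) = 1 := by
  unfold gg
  rw [Real.cos_pi_div_two]
  simp

theorem mono_of {f f' : ℝ → ℝ} (h : ∀ t, HasDerivAt f (f' t) t)
    (h0 : ∀ t, 0 ≤ t → t ≤ Real.pi / 2 → 0 ≤ f' t) : f 0 ≤ f (Real.pi / 2) := by
  have hm : MonotoneOn f (Set.Icc 0 (Real.pi / 2)) := by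
    apply monotoneOn_of_deriv_nonneg (convex_Icc _ _)
    · exact fun t _ => (h t).continuousAt.continuousWithinAt
    · exact fun t _ => (h t).differentiableAt.differentiableWithinAt
    · intro t ht
      rw [interior_Icc] at ht
      rw [(h t).deriv]
      exact h0 t ht.1.le ht.2.le
  have hp : (0 : ℝ) ≤ Real.pi / 2 := by positivity
  exact hm ⟨le_rfl, hp⟩ ⟨hp, le_rfl⟩ hp

theorem sig_le (K : ℕ) : sig 0 (K + 1) ≤ Real.pi / 2 := by
  have h := mono_of (f := fun t => GP (K + 1) t - (t - Real.pi / 2) * gg (K + 1) t)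
    (f' := fun t => gg (K + 1) t - (1 * gg (K + 1) t + (t - Real.pi / 2) *
      ((2 * K + 1) * cc K * Real.sin t ^ (2 * K + 1))))
    (fun t => (GP_deriv (K + 1) t).sub (((hasDerivAt_id' t).sub_const _).mul (gg_deriv K t))) ?_
  · simp only [GP_zero, gg_zero, GP_pi, gg_pi] at h
    linarith
  · intro t h0 h1
    have h2 : 0 ≤ Real.sin t := Real.sin_nonneg_of_nonneg_of_le_pi h0 (by linarith [Real.pi_pos])
    have h3 : 0 ≤ (Real.pi / 2 - t) * ((2 * K + 1) * cc K * Real.sin t ^ (2 * K + 1)) := by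
      have := (cc_pos K).le
      have h4 : 0 ≤ Real.pi / 2 - t := by linarith
      positivity
    linarith

theorem le_sig (K : ℕ) : Real.pi / 2 - Real.pi / 2 * cc K ≤ sig 0 (K + 1) := by
  have h := mono_of (f := fun t => (t - Real.pi / 2) * gg (K + 1) t +
      Real.pi / 2 * cc K * ((2 * K + 1) / (2 * K + 2)) * Real.sin t ^ (2 * K + 2) -
        GP (K + 1) t)
    (f' := fun t => (1 * gg (K + 1) t + (t - Real.pi / 2) *
      ((2 * K + 1) * cc K * Real.sin t ^ (2 * K + 1))) +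
      Real.pi / 2 * cc K * ((2 * K + 1) / (2 * K + 2)) *
        (((2 * K + 2 : ℕ) : ℝ) * Real.sin t ^ (2 * K + 2 - 1) * Real.cos t) - gg (K + 1) t)
    (fun t => ((((hasDerivAt_id' t).sub_const _).mul (gg_deriv K t)).add
      (((Real.hasDerivAt_sin t).pow (2 * K + 2)).const_mul _)).sub (GP_deriv (K + 1) t)) ?_
  · simp only [GP_zero, gg_zero, GP_pi, gg_pi, Real.sin_zero, Real.sin_pi_div_two, one_pow] at h
    have h1 : (0 : ℝ) ^ (2 * K + 2) = 0 := zero_pow (by omega)
    rw [h1] at h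
    have h2 : (2 * (K : ℝ) + 1) / (2 * K + 2) ≤ 1 := by
      rw [div_le_one (by positivity)]
      linarith
    have h3 : Real.pi / 2 * cc K * ((2 * K + 1) / (2 * K + 2)) ≤ Real.pi / 2 * cc K := by
      have h4 : 0 ≤ Real.pi / 2 * cc K := by
        have := (cc_pos K).le
        positivity
      nlinarith
    linarith
  · intro t h0 h1
    have h2 : 0 ≤ Real.sin t := Real.sin_nonneg_of_nonneg_of_le_pi h0 (by linarith [Real.pi_pos])
    have h3 : Real.pi / 2 - t ≤ Real.pi / 2 * Real.cos t := by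
      have h4 := Real.mul_le_sin (x := Real.pi / 2 - t) (by linarith) (by linarith)
      rw [Real.sin_pi_div_two_sub] at h4
      have h5 : 2 / Real.pi * (Real.pi / 2 - t) * (Real.pi / 2) = Real.pi / 2 - t := by
        have := Real.pi_ne_zero
        field_simp
      have h6 : (0 : ℝ) ≤ Real.pi / 2 := by positivity
      nlinarith [mul_le_mul_of_nonneg_right h4 h6]
    have e1 : 2 * K + 2 - 1 = 2 * K + 1 := by omega
    rw [e1]
    push_cast
    have h4 : 0 ≤ (2 * K + 1) * cc K * Real.sin t ^ (2 * K + 1) := by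
      have := (cc_pos K).le
      positivity
    have e2 : Real.pi / 2 * cc K * ((2 * (K : ℝ) + 1) / (2 * K + 2)) *
        ((2 * (K : ℝ) + 2) * Real.sin t ^ (2 * K + 1) * Real.cos t) =
        ((2 * K + 1) * cc K * Real.sin t ^ (2 * K + 1)) * (Real.pi / 2 * Real.cos t) := by
      have : (2 * (K : ℝ) + 2) ≠ 0 := by positivity
      field_simp
    rw [e2]
    nlinarith [mul_le_mul_of_nonneg_left h3 h4]

theorem sig_zero : Tendsto (sig 0) atTop (𝓝 (Real.pi / 2)) := by
  rw [← tendsto_add_atTop_iff_nat 1]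
  have h1 : Tendsto (fun K => Real.pi / 2 - Real.pi / 2 * cc K) atTop
      (𝓝 (Real.pi / 2 - Real.pi / 2 * 0)) :=
    tendsto_const_nhds.sub (cc_tendsto.const_mul _)
  rw [mul_zero, sub_zero] at h1
  exact tendsto_of_tendsto_of_tendsto_of_le_of_le h1 tendsto_const_nhds le_sig sig_le

theorem sig_succ {l : ℕ} {a : ℝ} (h : Tendsto (sig l) atTop (𝓝 a)) :
    Tendsto (sig (l + 1)) atTop (𝓝 ((2 * l + 1) / (2 * l + 2) * a)) := by
  have h1 : sig (l + 1) = fun K : ℕ => (2 * l + 1) / (2 * l + 2) * sig l K -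
      1 / (2 * l + 2) * (2 * K * cc K / (2 * K + 2 * l + 1)) := by
    funext K
    rw [← sig_step]
    have : (2 * (l : ℝ) + 2) ≠ 0 := by positivity
    field_simp
    ring
  rw [h1]
  have h2 := (h.const_mul ((2 * l + 1 : ℝ) / (2 * l + 2))).sub
    ((ustep l).const_mul (1 / (2 * l + 2 : ℝ)))
  rw [mul_zero, sub_zero] at h2
  exact h2

theorem hc_eq (k : ℕ) : hc k = 19 / 60 * (1 / (2 * k + 2 * 0 + 1)) +
    2023 / 300 * (1 / (2 * k + 2 * 1 + 1)) - 6559 / 400 * (1 / (2 * k + 2 * 2 + 1)) +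
    157 / 10 * (1 / (2 * k + 2 * 3 + 1)) - 259 / 40 * (1 / (2 * k + 2 * 4 + 1)) +
    21 / 16 * (1 / (2 * k + 2 * 5 + 1)) := by
  unfold hc
  have h : ∀ s : ℝ, PP (s ^ 2) * s ^ (2 * k) = 19 / 60 * s ^ (2 * k) +
      2023 / 300 * s ^ (2 * k + 2) - 6559 / 400 * s ^ (2 * k + 4) + 157 / 10 * s ^ (2 * k + 6) -
      259 / 40 * s ^ (2 * k + 8) + 21 / 16 * s ^ (2 * k + 10) := by
    intro s
    unfold PP
    ring
  simp only [h]
  have hi : ∀ (c : ℝ) (n : ℕ), IntervalIntegrable (fun s : ℝ => c * s ^ n) volume 0 1 :=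
    fun c n => (continuous_const.mul (continuous_pow n)).intervalIntegrable _ _
  have hv : ∀ (c : ℝ) (n : ℕ), ∫ s in (0 : ℝ)..1, c * s ^ n = c * (1 / (n + 1)) := by
    intro c n
    rw [intervalIntegral.integral_const_mul, integral_pow]
    simp
  rw [intervalIntegral.integral_add (((((hi _ _).add (hi _ _)).sub (hi _ _)).add (hi _ _)).sub
    (hi _ _)) (hi _ _), intervalIntegral.integral_sub ((((hi _ _).add (hi _ _)).sub
    (hi _ _)).add (hi _ _)) (hi _ _), intervalIntegral.integral_add (((hi _ _).add (hi _ _)).sub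
    (hi _ _)) (hi _ _), intervalIntegral.integral_sub ((hi _ _).add (hi _ _)) (hi _ _),
    intervalIntegral.integral_add (hi _ _) (hi _ _), hv, hv, hv, hv, hv, hv]
  push_cast
  norm_num

theorem lim : S_lim := by
  unfold S_lim
  have h : ∀ K : ℕ, ∑ k ∈ Finset.range (K + 1), hc k * cc k = 19 / 60 * sig 0 (K + 1) +
      2023 / 300 * sig 1 (K + 1) - 6559 / 400 * sig 2 (K + 1) + 157 / 10 * sig 3 (K + 1) -
      259 / 40 * sig 4 (K + 1) + 21 / 16 * sig 5 (K + 1) := by
    intro K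
    unfold sig
    rw [Finset.mul_sum, Finset.mul_sum, Finset.mul_sum, Finset.mul_sum, Finset.mul_sum,
      Finset.mul_sum, ← Finset.sum_add_distrib, ← Finset.sum_sub_distrib,
      ← Finset.sum_add_distrib, ← Finset.sum_sub_distrib, ← Finset.sum_add_distrib]
    refine Finset.sum_congr rfl fun k _ => ?_
    rw [hc_eq]
    push_cast
    ring
  simp only [h]
  have s0 := sig_zero
  have s1 := sig_succ s0
  have s2 := sig_succ s1
  have s3 := sig_succ s2
  have s4 := sig_succ s3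
  have s5 := sig_succ s4
  have hs : ∀ {f : ℕ → ℝ} {a : ℝ}, Tendsto f atTop (𝓝 a) →
      Tendsto (fun K => f (K + 1)) atTop (𝓝 a) := fun h => h.comp (tendsto_add_atTop_nat 1)
  have ht := ((((((hs s0).const_mul (19 / 60)).add ((hs s1).const_mul (2023 / 300))).sub
    ((hs s2).const_mul (6559 / 400))).add ((hs s3).const_mul (157 / 10))).sub
    ((hs s4).const_mul (259 / 40))).add ((hs s5).const_mul (21 / 16))
  convert ht using 2
  push_cast
  ring

end Pool.Agent.W538.ET
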